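import Pool.Agent.U59.DIV.B
import Pool.Agent.U457.PS.Orb
import Pool.Agent.W38.UPDb

/-! Hitting densities of the `3x+1` map on the positive integers: two-sided bounds by the least predecessor. -/

set_option autoImplicit false

namespace Pool.Agent.U59.HX

open Filter Topology Finset
open Pool.Agent.H499R2.ND (Td Mg)
open Pool.Agent.U59.DIV

/-- a trajectory which ends up at a number prime to `3` passes a small number prime to `3` -/
theorem coprime_pred (a : ℤ) (ha : ¬ (3 : ℤ) ∣ a) : ∀ (N : ℕ) (n : ℤ), 0 < n → n.toNat ≤ N → Rch n a →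
    ∃ n₁ : ℤ, 0 < n₁ ∧ n₁ ≤ 2 * n ∧ ¬ (3 : ℤ) ∣ n₁ ∧ Rch n₁ a := by
  intro N
  induction N with
  | zero => intro n hn hN; omega
  | succ N ih =>
    intro n hn hN hna
    by_cases h3 : (3 : ℤ) ∣ n
    · have hne : n ≠ a := by rintro rfl; exact ha h3
      have hT : Rch (Td 1 n) a := by
        obtain ⟨k, hk⟩ := hna
        rcases k with _ | k
        · exact absurd hk hne
        · exact ⟨k, by rw [Function.iterate_succ_apply] at hk; exact hk⟩
      by_cases h2 : n % 2 = 0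
      · have e : Td 1 n = n / 2 := by unfold Td; rw [if_pos h2]
        rw [e] at hT
        obtain ⟨n₁, h4, h5, h6, h7⟩ := ih (n / 2) (by omega) (by omega) hT
        exact ⟨n₁, h4, by omega, h6, h7⟩
      · have e : Td 1 n = (3 * n + 1) / 2 := by unfold Td; rw [if_neg h2]
        rw [e] at hT
        exact ⟨(3 * n + 1) / 2, by omega, by omega, by omega, hT⟩
    · exact ⟨n, hn, by omega, h3, hna⟩

/-- a lower bound for the densities -/
theorem lower : ∃ κ : ℝ, 0 < κ ∧ ∀ (a : ℤ) (l : ℝ), 0 < a → ¬ (3 : ℤ) ∣ a → HasD 1 (Pd a) l → κ / a ≤ l := by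
  obtain ⟨c, C, hc, -, h⟩ := Pool.Agent.W38.UPD.main
  refine ⟨c, hc, fun a l ha h3 hl => ?_⟩
  have haR : (0 : ℝ) < a := by exact_mod_cast ha
  apply ge_of_tendsto hl
  filter_upwards [eventually_ge_atTop a.toNat, eventually_gt_atTop 0] with N hN hN0
  have hNR : (0 : ℝ) < N := by exact_mod_cast hN0
  have haN : (a : ℝ) ≤ N := by
    have : a ≤ (N : ℤ) := by omega
    exact_mod_cast this
  rw [le_div_iff₀ hNR]
  obtain ⟨S, hS, hcard⟩ := h a ha h3 N haN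
  have h1 : (S : Set ℤ) ⊆ {n : ℤ | 0 < 1 * n ∧ 1 * n ≤ N ∧ n ∈ Pd a} := by
    intro z hz
    obtain ⟨h2, h4, j, -, h5⟩ := hS z hz
    have h6 : (0 : ℝ) < z := by linarith [half_pos hNR]
    have h7 : 0 < z := by exact_mod_cast h6
    have h8 : z ≤ (N : ℤ) := by exact_mod_cast h4
    exact ⟨by omega, by omega, j, h5⟩
  have h2 := Set.ncard_le_ncard h1 (win_fin (Or.inl rfl) N _)
  rw [Set.ncard_coe_finset] at h2
  have h3 : (S.card : ℝ) ≤ ct 1 (Pd a) N := by unfold ct; exact_mod_cast h2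
  calc c / a * N = c * N / a := by ring
    _ ≤ S.card := hcard
    _ ≤ _ := h3

/-- an upper bound for the densities -/
theorem upper : ∃ C : ℝ, 0 < C ∧ ∀ (a : ℤ) (l Y : ℝ), 1 ≤ Y → (∀ z : ℤ, 0 < z → Rch z a → Y ≤ z) →
    HasD 1 (Pd a) l → l ≤ C * Y ^ (-(6 / 100) : ℝ) := by
  obtain ⟨C, hC, h⟩ := Pool.Agent.U457.PS.meet_orbit (k := 1) odd_one (by norm_num)
  refine ⟨C, hC, fun a l Y hY hlow hl => ?_⟩
  apply le_of_tendsto hl
  filter_upwards [eventually_ge_atTop 1] with N hN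
  have hNR : (1 : ℝ) ≤ N := by exact_mod_cast hN
  have hN0 : (0 : ℝ) < N := by linarith
  rw [div_le_iff₀ hN0]
  have h1 := h a Y hY N hNR
  have hfin : {x : ℤ | |(x : ℝ)| ≤ (N : ℝ) ∧
      x ∈ Pool.Agent.U457.PS.MA 1 Y {z | ∃ i : ℕ, (Pool.Agent.H499R2.CO.Tz 1)^[i] a = z}}.Finite := by
    apply (Set.finite_Icc (-(N : ℤ)) N).subset
    rintro x ⟨hx, -⟩
    have h2 : |x| ≤ (N : ℤ) := by exact_mod_cast hx
    rw [abs_le] at h2
    exact ⟨h2.1, h2.2⟩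
  have hsub : {n : ℤ | 0 < 1 * n ∧ 1 * n ≤ N ∧ n ∈ Pd a} ⊆ {x : ℤ | |(x : ℝ)| ≤ (N : ℝ) ∧
      x ∈ Pool.Agent.U457.PS.MA 1 Y {z | ∃ i : ℕ, (Pool.Agent.H499R2.CO.Tz 1)^[i] a = z}} := by
    rintro n ⟨h2, h3, k, hk⟩
    have hn0 : 0 < n := by omega
    have hnR : (0 : ℝ) < n := by exact_mod_cast hn0
    refine ⟨?_, k, ⟨0, hk.symm⟩, fun j hj => ?_⟩
    · rw [abs_of_pos hnR]
      have : n ≤ (N : ℤ) := by omega
      exact_mod_cast this
    · have hj0 : 0 < (Td 1)^[j] n := by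
        have := (Rch.sign (s := 1) (Or.inl rfl) (Rch.iter n j)).1 (by omega)
        omega
      have h4 : Rch ((Td 1)^[j] n) a := by
        refine ⟨k - j, ?_⟩
        rw [← Function.iterate_add_apply, Nat.sub_add_cancel hj, hk]
      exact (hlow _ hj0 h4).trans (le_abs_self _)
  have h2 := Set.ncard_le_ncard hsub hfin
  have h3 : ct 1 (Pd a) N ≤ ({x : ℤ | |(x : ℝ)| ≤ (N : ℝ) ∧
      x ∈ Pool.Agent.U457.PS.MA 1 Y {z | ∃ i : ℕ, (Pool.Agent.H499R2.CO.Tz 1)^[i] a = z}}.ncard : ℝ) := by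
    unfold ct
    exact_mod_cast h2
  refine (h3.trans h1).trans (le_of_eq ?_)
  ring

/-- the hitting densities are comparable to powers of the least predecessor -/
theorem main : ∃ (D : ℤ → ℝ) (κ C : ℝ), 0 < κ ∧ 1 ≤ C ∧ (∀ a, HasD 1 (Pd a) (D a)) ∧
    (∀ a, 0 ≤ D a ∧ D a ≤ 1) ∧
    (∀ (a : ℤ) (Y : ℝ), 1 ≤ Y → (∀ z : ℤ, 0 < z → Rch z a → Y ≤ z) → D a ≤ C * Y ^ (-(6 / 100) : ℝ)) ∧
    (∀ a n : ℤ, ¬ (3 : ℤ) ∣ a → 0 < n → Rch n a → κ / n ≤ D a) ∧
    (∀ a : ℤ, 0 < a → (3 : ℤ) ∣ a → D a = 0) := by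
  obtain ⟨D, hD⟩ := densities (s := 1) (Or.inl rfl)
  obtain ⟨κ, hκ, hlow⟩ := lower
  obtain ⟨C, hC, hup⟩ := upper
  refine ⟨D, κ / 2, max C 1, by positivity, le_max_right _ _, fun a => (hD a).1, fun a => ?_, ?_, ?_, ?_⟩
  · refine ⟨(hD a).1.nonneg, le_of_tendsto' (hD a).1 fun N => ?_⟩
    exact div_le_one_of_le₀ (ct_le (Or.inl rfl) _ N) (Nat.cast_nonneg _)
  · intro a Y hY h
    refine (hup a (D a) Y hY h (hD a).1).trans ?_
    have : 0 < Y ^ (-(6 / 100) : ℝ) := Real.rpow_pos_of_pos (by linarith) _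
    exact mul_le_mul_of_nonneg_right (le_max_left _ _) this.le
  · intro a n ha hn hna
    obtain ⟨n₁, h1, h2, h3, h4⟩ := coprime_pred a ha n.toNat n hn le_rfl hna
    have h5 := hlow n₁ (D n₁) h1 h3 (hD n₁).1
    have h6 : D n₁ ≤ D a := HasD.le (Or.inl rfl) (hD n₁).1 (hD a).1 (fun x _ hx => Rch.trans hx h4)
    have hn1 : (0 : ℝ) < n₁ := by exact_mod_cast h1
    have hnR : (0 : ℝ) < n := by exact_mod_cast hn
    have h7 : (n₁ : ℝ) ≤ 2 * n := by exact_mod_cast h2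
    have h8 : κ / 2 / n ≤ κ / n₁ := by
      rw [div_div]
      exact div_le_div_of_nonneg_left hκ.le hn1 h7
    linarith
  · intro a ha h3
    exact (hD a).1.unique (D_three (s := 1) (by omega) h3)

end Pool.Agent.U59.HX
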