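import Pool.Agent.U59.HX.A

/-! Hitting densities and maximum excursions of the `3x+1` map. -/

set_option autoImplicit false

namespace Pool.Agent.U59.HX

open Filter Topology Finset
open Pool.Agent.H499R2.ND (Td Mg)
open Pool.Agent.U59.DIV

/-- terms divisible by `3` are small -/
theorem three_le {n a : ℤ} (hn : 0 < n) (h : Rch n a) (h3 : (3 : ℤ) ∣ a) : a ≤ n := by
  obtain ⟨k, hk⟩ := h
  obtain ⟨j, hj⟩ := pred_three k a n h3 hk
  have ha : 0 < a := by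
    by_contra hcon
    push Not at hcon
    have : n ≤ 0 := by
      rw [hj]
      exact mul_nonpos_of_nonneg_of_nonpos (by positivity) hcon
    omega
  have h1 : (1 : ℤ) ≤ 2 ^ j := one_le_pow₀ (by norm_num)
  nlinarith

section

variable {D : ℤ → ℝ} {κ C : ℝ}

/-- bounded excursions of the small numbers give small densities -/
theorem exc_dens (hup : ∀ (a : ℤ) (Y : ℝ), 1 ≤ Y → (∀ z : ℤ, 0 < z → Rch z a → Y ≤ z) →
      D a ≤ C * Y ^ (-(6 / 100) : ℝ)) {x A : ℝ} (hx : 1 ≤ x)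
    (h : ∀ n : ℤ, 0 < n → (n : ℝ) < x → ∀ a : ℤ, Rch n a → (a : ℝ) ≤ A) {a : ℤ} (ha : A < a) :
    D a ≤ C * x ^ (-(6 / 100) : ℝ) := by
  apply hup a x hx
  intro z hz hza
  by_contra hcon
  push Not at hcon
  have := h z hz hcon a hza
  linarith

/-- small densities give bounded excursions of the small numbers -/
theorem dens_exc (hκ : 0 < κ) (hlow : ∀ a n : ℤ, ¬ (3 : ℤ) ∣ a → 0 < n → Rch n a → κ / n ≤ D a) {x A : ℝ}
    (h : ∀ a : ℤ, A < a → ¬ (3 : ℤ) ∣ a → D a < κ / x) {n a : ℤ} (hn : 0 < n) (hnx : (n : ℝ) ≤ x)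
    (hna : Rch n a) : (a : ℝ) ≤ max A n := by
  by_cases h3 : (3 : ℤ) ∣ a
  · have : (a : ℝ) ≤ n := by exact_mod_cast three_le hn hna h3
    exact this.trans (le_max_right _ _)
  · by_contra hcon
    push Not at hcon
    have h1 := h a (lt_of_le_of_lt (le_max_left _ _) hcon) h3
    have h2 := hlow a n h3 hn hna
    have hnR : (0 : ℝ) < n := by exact_mod_cast hn
    have h4 : κ / x ≤ κ / n := div_le_div_of_nonneg_left hκ.le hnR hnx
    linarith

/-- polynomial excursions give a power decay of the densities -/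
theorem poly_dens (hC : 1 ≤ C) (h01 : ∀ a, 0 ≤ D a ∧ D a ≤ 1)
    (hup : ∀ (a : ℤ) (Y : ℝ), 1 ≤ Y → (∀ z : ℤ, 0 < z → Rch z a → Y ≤ z) →
      D a ≤ C * Y ^ (-(6 / 100) : ℝ)) {γ K : ℝ} (hγ : 0 < γ)
    (h : ∀ n a : ℤ, 0 < n → Rch n a → (a : ℝ) ≤ K * (n : ℝ) ^ γ) :
    ∃ K' : ℝ, ∀ a : ℤ, 0 < a → D a ≤ K' * (a : ℝ) ^ (-(6 / 100) / γ : ℝ) := by
  set K₁ : ℝ := max K 1 with hK₁
  have hK1 : 1 ≤ K₁ := le_max_right _ _
  have hK0 : 0 < K₁ := by linarith
  refine ⟨C * (2 * K₁) ^ ((6 / 100) / γ : ℝ), fun a ha => ?_⟩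
  have haR : (0 : ℝ) < a := by exact_mod_cast ha
  set x : ℝ := ((a : ℝ) / (2 * K₁)) ^ (1 / γ) with hx
  have hx0 : 0 < x := by positivity
  have hxp : x ^ (-(6 / 100) : ℝ) = (2 * K₁) ^ ((6 / 100) / γ : ℝ) * (a : ℝ) ^ (-(6 / 100) / γ : ℝ) := by
    rw [hx, ← Real.rpow_mul (by positivity), Real.div_rpow haR.le (by positivity)]
    have e1 : 1 / γ * (-(6 / 100) : ℝ) = -(6 / 100) / γ := by ring
    rw [e1, div_eq_mul_inv, ← Real.rpow_neg (by positivity), mul_comm]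
    congr 2
    ring
  have hgoal : D a ≤ C * x ^ (-(6 / 100) : ℝ) := by
    rcases lt_or_ge x 1 with h1 | h1
    · have h2 : 1 ≤ x ^ (-(6 / 100) : ℝ) := by
        have := Real.one_le_rpow_of_pos_of_le_one_of_nonpos hx0 h1.le (show (-(6 / 100) : ℝ) ≤ 0 by norm_num)
        exact this
      have h3 := (h01 a).2
      nlinarith
    · apply exc_dens hup h1 (A := K₁ * x ^ γ)
      · intro n hn hnx b hb
        have hnR : (0 : ℝ) < n := by exact_mod_cast hn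
        have h2 := h n b hn hb
        have h3 : (n : ℝ) ^ γ ≤ x ^ γ := Real.rpow_le_rpow hnR.le hnx.le hγ.le
        have h4 : 0 < (n : ℝ) ^ γ := Real.rpow_pos_of_pos hnR _
        calc (b : ℝ) ≤ K * (n : ℝ) ^ γ := h2
          _ ≤ K₁ * (n : ℝ) ^ γ := mul_le_mul_of_nonneg_right (le_max_left _ _) h4.le
          _ ≤ K₁ * x ^ γ := mul_le_mul_of_nonneg_left h3 hK0.le
      · have h2 : x ^ γ = (a : ℝ) / (2 * K₁) := by
          rw [hx, ← Real.rpow_mul (by positivity), one_div, inv_mul_cancel₀ hγ.ne', Real.rpow_one]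
        rw [h2]
        have h3 : K₁ * ((a : ℝ) / (2 * K₁)) = a / 2 := by field_simp
        rw [h3]
        linarith
  rw [hxp] at hgoal
  calc D a ≤ C * ((2 * K₁) ^ ((6 / 100) / γ : ℝ) * (a : ℝ) ^ (-(6 / 100) / γ : ℝ)) := hgoal
    _ = _ := by ring

/-- a power decay of the densities gives polynomial excursions -/
theorem dens_poly (hκ : 0 < κ) (hlow : ∀ a n : ℤ, ¬ (3 : ℤ) ∣ a → 0 < n → Rch n a → κ / n ≤ D a) {β K' : ℝ}
    (hβ : 0 < β) (hβ1 : β ≤ 1) (h : ∀ a : ℤ, 0 < a → D a ≤ K' * (a : ℝ) ^ (-β)) :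
    ∃ K : ℝ, ∀ n a : ℤ, 0 < n → Rch n a → (a : ℝ) ≤ K * (n : ℝ) ^ (1 / β) := by
  set K₁ : ℝ := max (K' / κ) 1 with hK₁
  have hK1 : 1 ≤ K₁ := le_max_right _ _
  have hK0 : 0 < K₁ := by linarith
  refine ⟨K₁ ^ (1 / β), fun n a hn hna => ?_⟩
  have hnR : (1 : ℝ) ≤ n := by exact_mod_cast hn
  have hn0 : (0 : ℝ) < n := by linarith
  have ha : 0 < a := by
    have := (Rch.sign (s := 1) (Or.inl rfl) hna).1 (by omega)
    omega
  have haR : (0 : ℝ) < a := by exact_mod_cast ha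
  have hβ' : 1 ≤ 1 / β := by rw [le_div_iff₀ hβ]; linarith
  by_cases h3 : (3 : ℤ) ∣ a
  · have h1 : (a : ℝ) ≤ n := by exact_mod_cast three_le hn hna h3
    have h2 : (n : ℝ) ≤ (n : ℝ) ^ (1 / β) := by
      calc (n : ℝ) = (n : ℝ) ^ (1 : ℝ) := (Real.rpow_one _).symm
        _ ≤ _ := Real.rpow_le_rpow_of_exponent_le hnR hβ'
    have h4 : 1 ≤ K₁ ^ (1 / β) := Real.one_le_rpow hK1 (by positivity)
    have h5 : 0 < (n : ℝ) ^ (1 / β) := Real.rpow_pos_of_pos hn0 _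
    nlinarith
  · have h1 := (hlow a n h3 hn hna).trans (h a ha)
    have h2 : (a : ℝ) ^ β ≤ K₁ * n := by
      have h4 : (a : ℝ) ^ (-β) * (a : ℝ) ^ β = 1 := by
        rw [← Real.rpow_add haR, neg_add_cancel, Real.rpow_zero]
      have h5 : 0 < (a : ℝ) ^ β := Real.rpow_pos_of_pos haR _
      have h6 : κ / n * (a : ℝ) ^ β ≤ K' := by
        calc κ / n * (a : ℝ) ^ β ≤ K' * (a : ℝ) ^ (-β) * (a : ℝ) ^ β :=
              mul_le_mul_of_nonneg_right h1 h5.le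
          _ = K' := by rw [mul_assoc, h4, mul_one]
      have h7 : (a : ℝ) ^ β ≤ K' / κ * n := by
        rw [div_mul_eq_mul_div, div_le_iff₀ hn0] at h6
        rw [div_mul_eq_mul_div, le_div_iff₀ hκ]
        linarith
      exact h7.trans (mul_le_mul_of_nonneg_right (le_max_left _ _) hn0.le)
    calc (a : ℝ) = ((a : ℝ) ^ β) ^ (1 / β) := by
          rw [← Real.rpow_mul haR.le, mul_one_div_cancel hβ.ne', Real.rpow_one]
      _ ≤ (K₁ * n) ^ (1 / β) := Real.rpow_le_rpow (by positivity) h2 (by positivity)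
      _ = _ := Real.mul_rpow hK0.le hn0.le

end

end Pool.Agent.U59.HX
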