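import Pool.Agent.U59.HX.B

/-! Hitting densities of the `3x+1` map on the natural numbers. -/

set_option autoImplicit false

namespace Pool.Agent.U59.HX

open Filter Topology Finset
open Pool.Agent.H499R2.ND (Td Mg)
open Pool.Agent.U59.DIV

/-- the accelerated `3x+1` map -/
def Tn (n : ℕ) : ℕ := if n % 2 = 0 then n / 2 else (3 * n + 1) / 2

theorem Tn_cast (n : ℕ) : ((Tn n : ℕ) : ℤ) = Td 1 (n : ℤ) := by
  unfold Tn Td
  by_cases h : n % 2 = 0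
  · rw [if_pos h, if_pos (by omega)]; omega
  · rw [if_neg h, if_neg (by omega)]; omega

theorem Tn_iter (k : ℕ) (n : ℕ) : ((Tn^[k] n : ℕ) : ℤ) = (Td 1)^[k] (n : ℤ) := by
  induction k with
  | zero => simp
  | succ k ih => rw [Function.iterate_succ_apply', Function.iterate_succ_apply', Tn_cast, ih]

/-- the trajectory -/
def tr (n : ℕ) : Set ℕ := {b : ℕ | ∃ k : ℕ, Tn^[k] n = b}

theorem tr_iff (n b : ℕ) : b ∈ tr n ↔ Rch (n : ℤ) (b : ℤ) := by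
  constructor
  · rintro ⟨k, rfl⟩
    exact ⟨k, (Tn_iter k n).symm⟩
  · rintro ⟨k, hk⟩
    refine ⟨k, ?_⟩
    rw [← Tn_iter] at hk
    exact_mod_cast hk

/-- natural density among the positive integers -/
def HasDn (S : Set ℕ) (δ : ℝ) : Prop :=
  Tendsto (fun N : ℕ => ({n : ℕ | 1 ≤ n ∧ n ≤ N ∧ n ∈ S}.ncard : ℝ) / N) atTop (𝓝 δ)

theorem hasDn_iff (a : ℕ) (δ : ℝ) : HasDn {n | a ∈ tr n} δ ↔ HasD 1 (Pd (a : ℤ)) δ := by
  unfold HasDn HasD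
  have : ∀ N : ℕ, ({n : ℕ | 1 ≤ n ∧ n ≤ N ∧ n ∈ {n | a ∈ tr n}}.ncard : ℝ) = ct 1 (Pd (a : ℤ)) N := by
    intro N
    rw [ct_nat (Or.inl rfl)]
    congr 2
    ext n
    simp only [Set.mem_ofPred_eq, one_mul]
    rw [tr_iff]
    rfl
  simp only [this]

theorem pos_nat {z : ℤ} (hz : 0 < z) : ∃ n : ℕ, 1 ≤ n ∧ z = (n : ℤ) :=
  ⟨z.toNat, by omega, (Int.toNat_of_nonneg hz.le).symm⟩

theorem rch_pos {n : ℕ} (hn : 1 ≤ n) {a : ℤ} (h : Rch (n : ℤ) a) : 0 < a := by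
  have := (Rch.sign (s := 1) (Or.inl rfl) h).1 (by omega)
  omega

/-- the theorem on the natural numbers -/
theorem mainN : ∃ (D : ℕ → ℝ) (κ C : ℝ), 0 < κ ∧ 1 ≤ C ∧ (∀ a, HasDn {n | a ∈ tr n} (D a)) ∧
    (∀ a, 0 ≤ D a ∧ D a ≤ 1) ∧
    (∀ (a : ℕ) (Y : ℝ), 1 ≤ a → 1 ≤ Y → (∀ z : ℕ, 1 ≤ z → a ∈ tr z → Y ≤ z) →
      D a ≤ C * Y ^ (-(6 / 100) : ℝ)) ∧
    (∀ a n : ℕ, ¬ 3 ∣ a → 1 ≤ n → a ∈ tr n → κ / n ≤ D a) ∧
    (∀ a : ℕ, 1 ≤ a → 3 ∣ a → D a = 0) ∧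
    (∀ x A : ℝ, 1 ≤ x → (∀ n : ℕ, 1 ≤ n → (n : ℝ) ≤ x → ∀ b ∈ tr n, (b : ℝ) ≤ A) →
      ∀ a : ℕ, 1 ≤ a → A < a → D a ≤ C * x ^ (-(6 / 100) : ℝ)) ∧
    (∀ x A : ℝ, (∀ a : ℕ, 1 ≤ a → A < a → D a < κ / x) →
      ∀ n : ℕ, 1 ≤ n → (n : ℝ) ≤ x → ∀ b ∈ tr n, (b : ℝ) ≤ max A n) ∧
    (∀ γ K : ℝ, 0 < γ → (∀ n : ℕ, 1 ≤ n → ∀ b ∈ tr n, (b : ℝ) ≤ K * (n : ℝ) ^ γ) →
      ∃ K' : ℝ, ∀ a : ℕ, 1 ≤ a → D a ≤ K' * (a : ℝ) ^ (-(6 / 100) / γ : ℝ)) ∧
    (∀ β K' : ℝ, 0 < β → β ≤ 1 → (∀ a : ℕ, 1 ≤ a → D a ≤ K' * (a : ℝ) ^ (-β)) →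
      ∃ K : ℝ, ∀ n : ℕ, 1 ≤ n → ∀ b ∈ tr n, (b : ℝ) ≤ K * (n : ℝ) ^ (1 / β)) := by
  classical
  obtain ⟨D₀, κ, C, hκ, hC, hD, h01, hup, hlow, h3⟩ := main
  have hC0 : 0 < C := by linarith
  -- the restriction to the naturals of the upper bound
  have hupN : ∀ (a : ℕ) (Y : ℝ), 1 ≤ Y → (∀ z : ℕ, 1 ≤ z → a ∈ tr z → Y ≤ z) →
      D₀ (a : ℤ) ≤ C * Y ^ (-(6 / 100) : ℝ) := by
    intro a Y hY h
    apply hup a Y hY
    intro z hz hza
    obtain ⟨n, hn, rfl⟩ := pos_nat hz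
    have := h n hn ((tr_iff n a).2 hza)
    exact_mod_cast this
  refine ⟨fun a => D₀ (a : ℤ), κ, C, hκ, hC, fun a => (hasDn_iff a _).2 (hD _), fun a => h01 _,
    fun a Y _ => hupN a Y, ?_, ?_, ?_, ?_, ?_, ?_⟩
  · intro a n ha hn hna
    have := hlow a n (by omega) (by omega) ((tr_iff n a).1 hna)
    exact_mod_cast this
  · intro a ha ha3
    exact h3 a (by omega) (by omega)
  · intro x A hx h a ha hA
    apply hupN a x hx
    intro z hz hza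
    by_contra hcon
    push Not at hcon
    have := h z hz hcon.le a hza
    linarith
  · intro x A h n hn hnx b hb
    by_cases hb3 : 3 ∣ b
    · have h1 : (b : ℤ) ≤ n := three_le (by omega) ((tr_iff n b).1 hb) (by omega)
      have h2 : (b : ℝ) ≤ n := by exact_mod_cast h1
      exact h2.trans (le_max_right _ _)
    · by_contra hcon
      push Not at hcon
      have hb1 : 1 ≤ b := by
        have := rch_pos hn ((tr_iff n b).1 hb)
        omega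
      have h1 := h b hb1 (lt_of_le_of_lt (le_max_left _ _) hcon)
      have h2 := hlow b n (by omega) (by omega) ((tr_iff n b).1 hb)
      have hnR : (0 : ℝ) < n := by exact_mod_cast hn
      have h4 : κ / x ≤ κ / n := div_le_div_of_nonneg_left hκ.le hnR hnx
      push_cast at h2
      linarith
  · intro γ K hγ h
    obtain ⟨K', hK'⟩ := poly_dens (D := D₀) hC h01 hup hγ (K := K) (by
      intro n a hn hna
      obtain ⟨n', hn', rfl⟩ := pos_nat hn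
      obtain ⟨a', ha', rfl⟩ := pos_nat (rch_pos hn' hna)
      have := h n' hn' a' ((tr_iff n' a').2 hna)
      exact_mod_cast this)
    refine ⟨K', fun a ha => ?_⟩
    have := hK' a (by omega)
    exact_mod_cast this
  · intro β K' hβ hβ1 h
    obtain ⟨K, hK⟩ := dens_poly (D := D₀) hκ hlow hβ hβ1 (K' := K') (by
      intro a ha
      obtain ⟨a', ha', rfl⟩ := pos_nat ha
      have := h a' ha'
      exact_mod_cast this)
    refine ⟨K, fun n hn b hb => ?_⟩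
    have := hK n b (by omega) ((tr_iff n b).1 hb)
    exact_mod_cast this

/-- multiples of `3` in a trajectory are finitely many -/
theorem tr_three_finite {n : ℕ} (hn : 1 ≤ n) : {b : ℕ | b ∈ tr n ∧ 3 ∣ b}.Finite := by
  apply (Set.finite_Iic n).subset
  rintro b ⟨hb, hb3⟩
  have h1 : (b : ℤ) ≤ n := three_le (by omega) ((tr_iff n b).1 hb) (by omega)
  rw [Set.mem_Iic]
  exact_mod_cast h1

/-- `T^k (2^k - 1) = 3^k - 1` -/
theorem mersenne (k : ℕ) : Tn^[k] (2 ^ k - 1) = 3 ^ k - 1 := by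
  have key : ∀ j i : ℕ, Tn^[j] (2 ^ j * 3 ^ i - 1) = 3 ^ (j + i) - 1 := by
    intro j
    induction j with
    | zero => intro i; simp
    | succ j ih =>
      intro i
      rw [Function.iterate_succ_apply]
      have h1 : 1 ≤ 2 ^ j * 3 ^ i := Nat.one_le_iff_ne_zero.2 (by positivity)
      have e : Tn (2 ^ (j + 1) * 3 ^ i - 1) = 2 ^ j * 3 ^ (i + 1) - 1 := by
        unfold Tn
        have h2 : 2 ^ (j + 1) * 3 ^ i = 2 * (2 ^ j * 3 ^ i) := by ring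
        have h3 : 2 ^ j * 3 ^ (i + 1) = 3 * (2 ^ j * 3 ^ i) := by ring
        rw [h2, h3, if_neg (by omega)]
        omega
      rw [e, ih (i + 1)]
      congr 2
      ring
  have := key k 0
  simpa using this

end Pool.Agent.U59.HX
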