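import Pool.Agent.U59.HX.C

/-! Hitting densities and the number of distinct terms of the trajectories of the `3x+1` map. -/

set_option autoImplicit false

namespace Pool.Agent.U59.HX

open Filter Topology Finset
open Pool.Agent.H499R2.ND (Td Mg)
open Pool.Agent.U59.DIV

/-- `S` is finite with at most `B` elements -/
def AtMost (S : Set ℕ) (B : ℝ) : Prop := S.Finite ∧ (S.ncard : ℝ) ≤ B

theorem AtMost.mono {S S' : Set ℕ} {B B' : ℝ} (h : AtMost S' B) (hs : S ⊆ S') (hB : B ≤ B') :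
    AtMost S B' := by
  refine ⟨h.1.subset hs, ?_⟩
  have : (S.ncard : ℝ) ≤ S'.ncard := by exact_mod_cast Set.ncard_le_ncard hs h.1
  linarith [h.2]

theorem AtMost.union {S S' : Set ℕ} {B B' : ℝ} (h : AtMost S B) (h' : AtMost S' B') :
    AtMost (S ∪ S') (B + B') := by
  refine ⟨h.1.union h'.1, ?_⟩
  have : ((S ∪ S').ncard : ℝ) ≤ S.ncard + S'.ncard := by exact_mod_cast Set.ncard_union_le S S'
  linarith [h.2, h'.2]

theorem atMost_three {n : ℕ} (hn : 1 ≤ n) : AtMost {b : ℕ | b ∈ tr n ∧ 3 ∣ b} (Nat.log 2 n + 1) := by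
  classical
  have hsub : {b : ℕ | b ∈ tr n ∧ 3 ∣ b} ⊆ (((Finset.range (Nat.log 2 n + 1)).image fun j => n / 2 ^ j : Finset ℕ) : Set ℕ) := by
    rintro b ⟨hb, hb3⟩
    obtain ⟨k, hk⟩ := (tr_iff n b).1 hb
    obtain ⟨j, hj⟩ := pred_three k b n (by omega) hk
    have hj' : n = 2 ^ j * b := by exact_mod_cast hj
    have hb1 : 1 ≤ b := by
      rcases Nat.eq_zero_or_pos b with h | h
      · subst h; omega
      · exact h
    rw [Finset.mem_coe, Finset.mem_image]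
    refine ⟨j, ?_, ?_⟩
    · rw [Finset.mem_range, Nat.lt_succ_iff]
      apply Nat.le_log_of_pow_le (by norm_num)
      rw [hj']
      exact Nat.le_mul_of_pos_right _ hb1
    · rw [hj']
      exact Nat.mul_div_cancel_left _ (by positivity)
  refine ⟨(Finset.finite_toSet _).subset hsub, ?_⟩
  have h1 := Set.ncard_le_ncard hsub (Finset.finite_toSet _)
  rw [Set.ncard_coe_finset] at h1
  have h2 := h1.trans Finset.card_image_le
  rw [Finset.card_range] at h2
  exact_mod_cast h2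

section

variable {D : ℕ → ℝ} {κ C : ℝ}

/-- few integers of large density give short trajectories -/
theorem short_of_few (hlow : ∀ a n : ℕ, ¬ 3 ∣ a → 1 ≤ n → a ∈ tr n → κ / n ≤ D a) {n : ℕ} (hn : 1 ≤ n)
    {B : ℝ} (h : AtMost {a : ℕ | 1 ≤ a ∧ κ / n ≤ D a} B) : AtMost (tr n) (B + (Nat.log 2 n + 1)) := by
  refine (h.union (atMost_three hn)).mono ?_ le_rfl
  intro b hb
  by_cases h3 : 3 ∣ b
  · exact Or.inr ⟨hb, h3⟩
  · left
    refine ⟨?_, hlow b n h3 hn hb⟩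
    have := rch_pos hn ((tr_iff n b).1 hb)
    omega

/-- the integers of large density are on the trajectories of small numbers -/
theorem large_sub (hC : 1 ≤ C) (h01 : ∀ a, 0 ≤ D a ∧ D a ≤ 1)
    (hup : ∀ (a : ℕ) (Y : ℝ), 1 ≤ a → 1 ≤ Y → (∀ z : ℕ, 1 ≤ z → a ∈ tr z → Y ≤ z) →
      D a ≤ C * Y ^ (-(6 / 100) : ℝ)) {ε : ℝ} (hε : 0 < ε) :
    {a : ℕ | 1 ≤ a ∧ ε ≤ D a} ⊆
      ⋃ z ∈ {z : ℕ | 1 ≤ z ∧ (z : ℝ) ≤ (C / ε) ^ (50 / 3 : ℝ)}, tr z := by
  classical
  rintro a ⟨ha, haD⟩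
  by_contra hcon
  simp only [Set.mem_iUnion, exists_prop, not_exists, not_and] at hcon
  have hex : ∃ z : ℕ, 1 ≤ z ∧ a ∈ tr z := ⟨a, ha, 0, rfl⟩
  obtain ⟨hz1, hza⟩ := Nat.find_spec hex
  set z := Nat.find hex with hz
  have hzr : (C / ε) ^ (50 / 3 : ℝ) < z := by
    by_contra hc
    exact hcon z ⟨hz1, not_lt.1 hc⟩ hza
  have hzR : (1 : ℝ) ≤ z := by exact_mod_cast hz1
  have h1 := hup a z ha hzR (by
    intro w hw hwa
    have : z ≤ w := Nat.find_min' hex ⟨hw, hwa⟩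
    exact_mod_cast this)
  have hW : 0 < (C / ε) ^ (50 / 3 : ℝ) := by positivity
  have h2 : (z : ℝ) ^ (-(6 / 100) : ℝ) < ((C / ε) ^ (50 / 3 : ℝ)) ^ (-(6 / 100) : ℝ) :=
    Real.rpow_lt_rpow_of_neg hW hzr (by norm_num)
  have h3 : ((C / ε) ^ (50 / 3 : ℝ)) ^ (-(6 / 100) : ℝ) = ε / C := by
    rw [← Real.rpow_mul (by positivity)]
    have e : (50 / 3 : ℝ) * (-(6 / 100)) = -1 := by norm_num
    rw [e, Real.rpow_neg_one, inv_div]
  rw [h3] at h2
  have h4 : C * (z : ℝ) ^ (-(6 / 100) : ℝ) < C * (ε / C) := mul_lt_mul_of_pos_left h2 (by linarith)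
  have h5 : C * (ε / C) = ε := by field_simp
  linarith

/-- short trajectories give few integers of large density -/
theorem few_of_short (hC : 1 ≤ C) (h01 : ∀ a, 0 ≤ D a ∧ D a ≤ 1)
    (hup : ∀ (a : ℕ) (Y : ℝ), 1 ≤ a → 1 ≤ Y → (∀ z : ℕ, 1 ≤ z → a ∈ tr z → Y ≤ z) →
      D a ≤ C * Y ^ (-(6 / 100) : ℝ)) {ε B : ℝ} (hε : 0 < ε) (hB : 0 ≤ B)
    (h : ∀ z : ℕ, 1 ≤ z → (z : ℝ) ≤ (C / ε) ^ (50 / 3 : ℝ) → AtMost (tr z) B) :
    AtMost {a : ℕ | 1 ≤ a ∧ ε ≤ D a} ((C / ε) ^ (50 / 3 : ℝ) * B) := by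
  classical
  set W : ℝ := (C / ε) ^ (50 / 3 : ℝ) with hW
  have hW0 : 0 < W := by positivity
  set Z : Finset ℕ := Finset.Icc 1 ⌊W⌋₊ with hZ
  have hZm : ∀ z, z ∈ Z ↔ 1 ≤ z ∧ (z : ℝ) ≤ W := by
    intro z
    rw [hZ, Finset.mem_Icc, Nat.le_floor_iff hW0.le]
  have hsub : {a : ℕ | 1 ≤ a ∧ ε ≤ D a} ⊆ ⋃ z ∈ Z, tr z := by
    intro a ha
    have := large_sub hC h01 hup hε ha
    simp only [Set.mem_iUnion, exists_prop] at this ⊢
    obtain ⟨z, hz, hza⟩ := this
    exact ⟨z, (hZm z).2 hz, hza⟩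
  have hfin : (⋃ z ∈ Z, tr z).Finite := Set.Finite.biUnion Z.finite_toSet fun z hz =>
    (h z ((hZm z).1 hz).1 ((hZm z).1 hz).2).1
  refine ⟨hfin.subset hsub, ?_⟩
  have h1 : ({a : ℕ | 1 ≤ a ∧ ε ≤ D a}.ncard : ℝ) ≤ ((⋃ z ∈ Z, tr z).ncard : ℝ) := by
    exact_mod_cast Set.ncard_le_ncard hsub hfin
  have h2 : ((⋃ z ∈ Z, tr z).ncard : ℝ) ≤ ∑ z ∈ Z, ((tr z).ncard : ℝ) := by
    exact_mod_cast Finset.set_ncard_biUnion_le Z tr
  have h3 : ∑ z ∈ Z, ((tr z).ncard : ℝ) ≤ Z.card * B := by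
    rw [← nsmul_eq_mul]
    exact Finset.sum_le_card_nsmul Z _ _ fun z hz => (h z ((hZm z).1 hz).1 ((hZm z).1 hz).2).2
  have h4 : (Z.card : ℝ) ≤ W := by
    rw [hZ, Nat.card_Icc]
    simp only [Nat.add_sub_cancel]
    exact Nat.floor_le hW0.le
  exact (h1.trans (h2.trans h3)).trans (mul_le_mul_of_nonneg_right h4 hB)

end

/-! ### the Collatz function -/

/-- the Collatz function -/
def Cn (n : ℕ) : ℕ := if n % 2 = 0 then n / 2 else 3 * n + 1

theorem Cn_Tn (n : ℕ) : ∃ k : ℕ, 1 ≤ k ∧ k ≤ 2 ∧ Cn^[k] n = Tn n := by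
  by_cases h : n % 2 = 0
  · refine ⟨1, le_rfl, by norm_num, ?_⟩
    rw [Function.iterate_one]
    unfold Cn Tn
    rw [if_pos h, if_pos h]
  · refine ⟨2, by norm_num, le_rfl, ?_⟩
    have e1 : Cn n = 3 * n + 1 := by unfold Cn; rw [if_neg h]
    have e2 : Cn (3 * n + 1) = (3 * n + 1) / 2 := by unfold Cn; rw [if_pos (by omega)]
    have e3 : Tn n = (3 * n + 1) / 2 := by unfold Tn; rw [if_neg h]
    rw [Function.iterate_succ_apply, Function.iterate_one, e1, e2, e3]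

theorem Cn_iter (m : ℕ) (n : ℕ) : ∃ k : ℕ, k ≤ 2 * m ∧ Cn^[k] n = Tn^[m] n := by
  induction m with
  | zero => exact ⟨0, by omega, rfl⟩
  | succ m ih =>
    obtain ⟨k, hk, h1⟩ := ih
    obtain ⟨l, hl1, hl2, h2⟩ := Cn_Tn (Tn^[m] n)
    refine ⟨l + k, by omega, ?_⟩
    rw [Function.iterate_add_apply, h1, h2, Function.iterate_succ_apply']

theorem Tn_pos {n : ℕ} (hn : 1 ≤ n) : 1 ≤ Tn n := by
  unfold Tn
  split_ifs with h
  · omega
  · omega

theorem Tn_iter_pos {n : ℕ} (hn : 1 ≤ n) (k : ℕ) : 1 ≤ Tn^[k] n := by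
  induction k with
  | zero => simpa using hn
  | succ k ih => rw [Function.iterate_succ_apply']; exact Tn_pos ih

/-- a finite trajectory reaches `1` if there is no other cycle, in less steps than it has terms -/
theorem reach_of_finite (hcyc : ∀ z p : ℕ, 1 ≤ z → 1 ≤ p → Tn^[p] z = z → z ≤ 2) {n : ℕ} (hn : 1 ≤ n)
    {B : ℝ} (h : AtMost (tr n) B) : ∃ m : ℕ, (m : ℝ) ≤ B ∧ Tn^[m] n = 1 := by
  classical
  -- a repetition
  have hrep : ∃ i j : ℕ, i < j ∧ Tn^[i] n = Tn^[j] n := by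
    by_contra hcon
    push Not at hcon
    have hinj : Function.Injective (fun k => Tn^[k] n) := by
      intro i j hij
      rcases Nat.lt_trichotomy i j with h1 | h1 | h1
      · exact absurd hij (hcon i j h1)
      · exact h1
      · exact absurd hij.symm (hcon j i h1)
    have h1 : (Set.range fun k => Tn^[k] n).Infinite := Set.infinite_range_of_injective hinj
    apply h1
    apply h.1.subset
    rintro x ⟨k, rfl⟩
    exact ⟨k, rfl⟩
  obtain ⟨i, j, hij, he⟩ := hrep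
  have h2 : Tn^[i] n ≤ 2 := by
    apply hcyc _ (j - i) (Tn_iter_pos hn i) (by omega)
    rw [← Function.iterate_add_apply, Nat.sub_add_cancel hij.le]
    exact he.symm
  have hex : ∃ m : ℕ, Tn^[m] n = 1 := by
    have h3 := Tn_iter_pos hn i
    rcases (by omega : Tn^[i] n = 1 ∨ Tn^[i] n = 2) with h4 | h4
    · exact ⟨i, h4⟩
    · refine ⟨i + 1, ?_⟩
      rw [Function.iterate_succ_apply', h4]
      rfl
  refine ⟨Nat.find hex, ?_, Nat.find_spec hex⟩
  set m := Nat.find hex with hm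
  -- the first `m` terms are distinct
  have hinj : Set.InjOn (fun k => Tn^[k] n) (Set.Iio m) := by
    have key : ∀ a b : ℕ, a < b → b < m → Tn^[a] n ≠ Tn^[b] n := by
      intro a b hab hbm he
      have h5 : Tn^[m - b + a] n = 1 := by
        rw [Function.iterate_add_apply, he, ← Function.iterate_add_apply, Nat.sub_add_cancel hbm.le]
        exact Nat.find_spec hex
      exact Nat.find_min hex (m := m - b + a) (by omega) h5
    intro a ha b hb hab
    rcases Nat.lt_trichotomy a b with h1 | h1 | h1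
    · exact absurd hab (key a b h1 hb)
    · exact h1
    · exact absurd hab.symm (key b a h1 ha)
  have h6 : (Set.Iio m).ncard ≤ (tr n).ncard := by
    apply Set.ncard_le_ncard_of_injOn (fun k => Tn^[k] n) _ hinj h.1
    intro k _
    exact ⟨k, rfl⟩
  have h7 : (Set.Iio m).ncard = m := by
    rw [← Finset.coe_Iio, Set.ncard_coe_finset]; simp
  rw [h7] at h6
  have h8 : (m : ℝ) ≤ ((tr n).ncard : ℝ) := by exact_mod_cast h6
  exact h8.trans h.2

/-- the accelerated trajectory is part of the Collatz trajectory -/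
theorem tr_sub_C {n : ℕ} {k : ℕ} (hk : Cn^[k] n = 1) : AtMost (tr n) (k + 4) := by
  classical
  have hcyc : ∀ j : ℕ, Cn^[j] 1 ∈ ({1, 4, 2} : Finset ℕ) := by
    intro j
    induction j with
    | zero => simp
    | succ j ih =>
      rw [Function.iterate_succ_apply']
      simp only [Finset.mem_insert, Finset.mem_singleton] at ih ⊢
      rcases ih with h | h | h <;> rw [h] <;> simp [Cn]
  have hsub : tr n ⊆ (((Finset.range (k + 1)).image (fun i => Cn^[i] n) ∪ {1, 4, 2} : Finset ℕ) : Set ℕ) := by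
    rintro b ⟨m, rfl⟩
    obtain ⟨i, -, hi⟩ := Cn_iter m n
    rw [← hi, Finset.mem_coe, Finset.mem_union]
    rcases Nat.lt_or_ge k i with h | h
    · right
      obtain ⟨j, rfl⟩ := Nat.exists_eq_add_of_le h.le
      rw [add_comm k j, Function.iterate_add_apply, hk]
      exact hcyc j
    · left
      rw [Finset.mem_image]
      exact ⟨i, Finset.mem_range.2 (by omega), rfl⟩
  refine ⟨(Finset.finite_toSet _).subset hsub, ?_⟩
  have h1 := Set.ncard_le_ncard hsub (Finset.finite_toSet _)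
  rw [Set.ncard_coe_finset] at h1
  have h2 : ((Finset.range (k + 1)).image (fun i => Cn^[i] n) ∪ {1, 4, 2} : Finset ℕ).card ≤ k + 4 := by
    refine (Finset.card_union_le _ _).trans ?_
    have h3 : ((Finset.range (k + 1)).image (fun i => Cn^[i] n)).card ≤ k + 1 :=
      Finset.card_image_le.trans (by rw [Finset.card_range])
    have h4 : ({1, 4, 2} : Finset ℕ).card ≤ 3 := Finset.card_le_three
    omega
  have h3 := h1.trans h2
  exact_mod_cast h3

end Pool.Agent.U59.HX
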